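import Mathlib
import Pool.Agent.H546Z.BMDefs
import Pool.Agent.H546Z.BMMain

set_option autoImplicit false

namespace Pool.Agent.Results.MP_76953b_al.VirtCyclic

open Pool.Agent.H546Z.BMDefs

/-- A finitely generated group with an integer-valued, left-invariant, proper metric whose
metric-functional boundary is finite has a cyclic subgroup of finite index. -/
theorem result (G : Type) [Group G] [Group.FG G] (d : G → G → ℝ) (hd : IsIntProperMetric d)
    (hB : (boundary d).Finite) : ∃ g : G, (Subgroup.zpowers g).FiniteIndex :=
  Pool.Agent.H546Z.BM.main hd hB

end Pool.Agent.Results.MP_76953b_al.VirtCyclic
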